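import Mathlib

/-!
# The structure of the positive integers with `x + y`, `x * 2 ^ y`, `≤` and `1` is not automatic

The function `(x, y) ↦ (2 x + 1) 2 ^ y` is injective, and in an automatic presentation the length
of the code of a value of an automatic function exceeds the lengths of the codes of the arguments
at most by a constant.  Hence from two elements one gets, in `k` steps, `2 ^ (2 ^ k)` different
elements all of which have codes of length `O (k)`, which is impossible.
-/

set_option autoImplicit false

namespace Pool.Agent.Results.MP_34afd1_lc.NotAutomatic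

open FirstOrder FirstOrder.Language

/-! ### Automatic structures -/

/-- The convolution of the words `w 0, ..., w (k - 1)`: all words are padded on the right with the
padding symbol `none` to the maximal length `m`, and the result is read as one word of length `m`
over the alphabet of the `k`-tuples of letters or padding symbols. -/
def conv {A : Type} {k : ℕ} (w : Fin k → List A) : List (Fin k → Option A) :=
  List.ofFn fun (i : Fin (Finset.univ.sup fun j => (w j).length)) (j : Fin k) => (w j)[(i : ℕ)]?

/-- A `k`-ary relation on words is automatic if the convolutions of its tuples form a regular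
language. -/
def AutomaticRel {A : Type} {k : ℕ} (R : Set (Fin k → List A)) : Prop :=
  Language.IsRegular ({u | ∃ w ∈ R, conv w = u} : _root_.Language (Fin k → Option A))

/-- An `L`-structure `M` (in a language with finitely many symbols) is automatic if, for some finite
alphabet `A` and some bijection `e` of `M` with a regular language `D` of words over `A`, all
relations of `M` and the graphs of all functions of `M` (constants are functions of arity `0`)
are automatic when they are transported by `e`. -/
def IsAutomatic (L : FirstOrder.Language.{0, 0}) (M : Type) [L.Structure M] : Prop :=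
  ∃ (A : Type) (_ : Finite A) (D : _root_.Language A) (e : M ≃ {u : List A // u ∈ D}),
    D.IsRegular ∧
    (∀ (n : ℕ) (R : L.Relations n),
      AutomaticRel {w : Fin n → List A |
        ∃ x : Fin n → M, Structure.RelMap R x ∧ ∀ i, w i = e (x i)}) ∧
    (∀ (n : ℕ) (f : L.Functions n),
      AutomaticRel {w : Fin (n + 1) → List A |
        ∃ x : Fin n → M, (∀ i : Fin n, w i.castSucc = e (x i)) ∧
          w (Fin.last n) = e (Structure.funMap f x)})

/-! ### The structure of the problem -/

/-- The function symbols: the constant `1`, the addition, and `x * 2 ^ y`. -/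
inductive Fun : ℕ → Type
  | one : Fun 0
  | add : Fun 2
  | shift : Fun 2

/-- The relation symbols: the order `≤`. -/
inductive Rel : ℕ → Type
  | le : Rel 2

/-- The language with `+`, `x * 2 ^ y`, `≤` and `1`. -/
def LN : FirstOrder.Language.{0, 0} := ⟨Fun, Rel⟩

/-- The structure of the positive integers with the addition, the function
`(x, y) ↦ x * 2 ^ y`, the usual order and the constant `1`. -/
instance strN : LN.Structure ℕ+ where
  funMap := fun {_} f => match f with
    | Fun.one => fun _ => 1
    | Fun.add => fun x => x 0 + x 1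
    | Fun.shift => fun x => x 0 * 2 ^ (x 1 : ℕ)
  RelMap := fun {_} r => match r with
    | Rel.le => fun x => x 0 ≤ x 1

/-! ### The lengths of the values of automatic functions -/

section Length

variable {A : Type}

theorem conv_length {k : ℕ} (w : Fin k → List A) :
    (conv w).length = Finset.univ.sup fun j => (w j).length := by
  simp [conv]

theorem conv_get? {k : ℕ} (w : Fin k → List A) (j : Fin k) (i : ℕ) :
    (w j)[i]? = ((conv w)[i]?).bind fun c => c j := by
  by_cases hi : i < (conv w).length
  · rw [List.getElem?_eq_getElem hi]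
    simp [conv]
  · rw [List.getElem?_eq_none (not_lt.mp hi)]
    rw [conv_length] at hi
    have h1 : (w j).length ≤ Finset.univ.sup fun j => (w j).length :=
      Finset.le_sup (f := fun j => (w j).length) (Finset.mem_univ j)
    rw [List.getElem?_eq_none (by omega)]
    rfl

/-- If the graph of a (partial) binary function on words is automatic, then the lengths of the
values exceed the lengths of the arguments at most by a constant. -/
theorem length_bound (R : Set (Fin 3 → List A)) (hR : AutomaticRel R)
    (hfun : ∀ w ∈ R, ∀ w' ∈ R, w 0 = w' 0 → w 1 = w' 1 → w 2 = w' 2) :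
    ∃ N : ℕ, ∀ w ∈ R, (w 2).length ≤ max (w 0).length (w 1).length + N := by
  obtain ⟨σ, _, M, hM⟩ := hR
  refine ⟨Fintype.card σ, fun w hw => ?_⟩
  by_contra hlt
  push Not at hlt
  set m := max (w 0).length (w 1).length with hm
  have hsup : (conv w).length = (w 2).length := by
    rw [conv_length]
    apply le_antisymm
    · apply Finset.sup_le
      intro j _
      have h0 : (w 0).length ≤ (w 2).length := by
        have := le_max_left (w 0).length (w 1).length
        omega
      have h1 : (w 1).length ≤ (w 2).length := by
        have := le_max_right (w 0).length (w 1).length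
        omega
      fin_cases j
      · exact h0
      · exact h1
      · exact le_rfl
    · exact Finset.le_sup (f := fun j => (w j).length) (Finset.mem_univ 2)
  have hacc : conv w ∈ M.accepts := by
    rw [hM]
    exact ⟨w, hw, rfl⟩
  obtain ⟨q, a, b, c, hx, -, hnil, ha, hb, hc⟩ :=
    M.evalFrom_split (x := (conv w).drop m) (s := M.eval ((conv w).take m))
      (by rw [List.length_drop]; omega) rfl
  have hacc2 : (conv w).take m ++ (a ++ c) ∈ M.accepts := by
    rw [DFA.mem_accepts, DFA.eval, DFA.evalFrom_of_append]
    change M.evalFrom (M.eval ((conv w).take m)) (a ++ c) ∈ M.accept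
    rw [DFA.evalFrom_of_append, ha, hc]
    rw [DFA.mem_accepts] at hacc
    have h1 : M.eval (conv w) = M.evalFrom (M.eval ((conv w).take m)) ((conv w).drop m) := by
      conv_lhs => rw [← List.take_append_drop m (conv w)]
      rw [DFA.eval, DFA.evalFrom_of_append]
    rw [← h1]
    exact hacc
  rw [hM] at hacc2
  obtain ⟨w', hw', hconv⟩ := hacc2
  have htake : ((conv w).take m).length = m := by
    rw [List.length_take]
    omega
  have hlen : (conv w').length + b.length = (conv w).length := by
    rw [hconv]
    have h2 := congrArg List.length hx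
    rw [List.length_drop] at h2
    simp only [List.length_append, htake] at h2 ⊢
    omega
  have hbpos : 0 < b.length := List.length_pos_iff.mpr hnil
  -- the first two components are unchanged
  have hcomp : ∀ j : Fin 3, (w j).length ≤ m → w' j = w j := by
    intro j hj
    apply List.ext_getElem?
    intro i
    rw [conv_get? w' j i, hconv]
    rcases lt_or_ge i m with hi | hi
    · rw [List.getElem?_append_left (by omega), conv_get? w j i, List.getElem?_take_of_lt hi]
    · rw [List.getElem?_append_right (by omega), htake, List.getElem?_eq_none (l := w j) (by omega)]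
      rcases h3 : (a ++ c)[i - m]? with _ | d
      · rfl
      · have h4 : d ∈ (conv w).drop m := by
          rw [hx]
          have h5 := List.mem_of_getElem? h3
          simp only [List.mem_append] at h5 ⊢
          tauto
        obtain ⟨l, hl⟩ := List.getElem?_of_mem h4
        rw [List.getElem?_drop] at hl
        have h6 := conv_get? w j (m + l)
        rw [hl, List.getElem?_eq_none (l := w j) (by omega)] at h6
        exact h6.symm
  have h7 := hfun w hw w' hw' (hcomp 0 (le_max_left _ _)).symm (hcomp 1 (le_max_right _ _)).symm
  have h8 : (w' 2).length ≤ (conv w').length := by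
    rw [conv_length]
    exact Finset.le_sup (f := fun j => (w' j).length) (Finset.mem_univ 2)
  rw [← h7] at h8
  omega

end Length

/-! ### Growth -/

/-- The function `(x, y) ↦ (2 x + 1) 2 ^ y`. -/
def pair (x y : ℕ+) : ℕ+ := (x * 2 ^ ((1 : ℕ+) : ℕ) + 1) * 2 ^ (y : ℕ)

theorem pair_injective : Function.Injective fun p : ℕ+ × ℕ+ => pair p.1 p.2 := by
  have key : ∀ a b c d : ℕ, (a * 2 + 1) * 2 ^ c = (b * 2 + 1) * 2 ^ d → c ≤ d → a = b ∧ c = d := by
    intro a b c d h hcd
    obtain ⟨t, rfl⟩ := Nat.exists_eq_add_of_le hcd
    rw [pow_add, mul_left_comm, mul_comm (a * 2 + 1)] at h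
    have h1 := Nat.eq_of_mul_eq_mul_left (pow_pos (by norm_num : 0 < 2) c) h
    rcases t with _ | t
    · simp only [pow_zero, mul_one] at h1
      exact ⟨by omega, rfl⟩
    · exfalso
      rw [pow_succ] at h1
      have h2 : (b * 2 + 1) * (2 ^ t * 2) = 2 * ((b * 2 + 1) * 2 ^ t) := by ring
      omega
  rintro ⟨x, y⟩ ⟨x', y'⟩ h
  have h1 : ((x : ℕ) * 2 + 1) * 2 ^ (y : ℕ) = ((x' : ℕ) * 2 + 1) * 2 ^ (y' : ℕ) := by
    have h2 := congrArg (fun z : ℕ+ => (z : ℕ)) h
    simpa [pair] using h2
  rcases le_total (y : ℕ) (y' : ℕ) with hle | hle
  · obtain ⟨h2, h3⟩ := key _ _ _ _ h1 hle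
    exact Prod.ext (PNat.eq h2) (PNat.eq h3)
  · obtain ⟨h2, h3⟩ := key _ _ _ _ h1.symm hle
    exact Prod.ext (PNat.eq h2.symm) (PNat.eq h3.symm)

/-- The elements obtained in `k` steps. -/
def gen : ℕ → Finset ℕ+
  | 0 => {1, 2}
  | k + 1 => (gen k ×ˢ gen k).image fun p => pair p.1 p.2

theorem card_gen (k : ℕ) : (gen k).card = 2 ^ 2 ^ k := by
  induction k with
  | zero => rfl
  | succ k ih =>
    rw [gen, Finset.card_image_of_injective _ pair_injective, Finset.card_product, ih, ← pow_add,
      pow_succ 2 k, mul_two]

/-- There are at most `(s + 1) ^ l` words of length at most `l` over `s` letters. -/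
theorem card_words {A : Type} [Finite A] (l : ℕ) (S : Finset (List A))
    (hS : ∀ u ∈ S, u.length ≤ l) : S.card ≤ (Nat.card A + 1) ^ l := by
  classical
  have := Fintype.ofFinite A
  have h1 : (S.image fun (u : List A) (i : Fin l) => u[(i : ℕ)]?).card = S.card := by
    apply Finset.card_image_of_injOn
    intro u hu v hv huv
    apply List.ext_getElem?
    intro i
    rcases lt_or_ge i l with hi | hi
    · exact congrFun huv ⟨i, hi⟩
    · rw [List.getElem?_eq_none (le_trans (hS u hu) hi),
        List.getElem?_eq_none (le_trans (hS v hv) hi)]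
  rw [← h1]
  refine le_trans (Finset.card_le_univ _) ?_
  rw [Fintype.card_fun, Fintype.card_option, Fintype.card_fin, Nat.card_eq_fintype_card]

theorem exp_beats (s a b : ℕ) : ∃ k : ℕ, (s + 1) ^ (a + b * k) < 2 ^ 2 ^ k := by
  have h1 : s + 1 ≤ 2 ^ s := Nat.lt_two_pow_self
  have h2 : ∃ k : ℕ, s * (a + b * k) < 2 ^ k := by
    refine ⟨2 * (s * a + s * b + 2), ?_⟩
    set t := s * a + s * b + 2 with ht
    have h3 : t < 2 ^ t := Nat.lt_two_pow_self
    have h4 : 2 ^ (2 * t) = 2 ^ t * 2 ^ t := by rw [two_mul, pow_add]
    have h5 : s * (a + b * (2 * t)) = s * a + (s * b) * (2 * t) := by ring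
    have h6 : s * a + (s * b) * (2 * t) ≤ 2 * t * t := by
      have h12 : s * b + 2 + s * a = t := by omega
      have h13 : (s * b) * (2 * t) + (s * a + 2) * (2 * t) = 2 * t * t := by
        rw [← add_mul, ← h12]
        ring
      have h14 : s * a ≤ (s * a + 2) * (2 * t) := by
        have : 1 ≤ 2 * t := by omega
        calc s * a ≤ (s * a + 2) * 1 := by omega
          _ ≤ (s * a + 2) * (2 * t) := Nat.mul_le_mul_left _ this
      omega
    rw [h4, h5]
    have h7 : t + 1 ≤ 2 ^ t := h3
    -- `2 t² < (2^t)²` since `2 t ≤ 2 ^ t`
    have h8 : 2 * t ≤ 2 ^ t := by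
      have h9 : t - 1 + 1 = t := by omega
      have h10 : t - 1 < 2 ^ (t - 1) := Nat.lt_two_pow_self
      have h11 : 2 ^ t = 2 * 2 ^ (t - 1) := by rw [← pow_succ', h9]
      omega
    nlinarith
  obtain ⟨k, hk⟩ := h2
  refine ⟨k, ?_⟩
  calc (s + 1) ^ (a + b * k) ≤ (2 ^ s) ^ (a + b * k) := Nat.pow_le_pow_left h1 _
    _ = 2 ^ (s * (a + b * k)) := by rw [← pow_mul]
    _ < 2 ^ 2 ^ k := Nat.pow_lt_pow_right (by norm_num) hk

/-- The graph of a binary function of an automatic presentation satisfies the hypothesis of
`length_bound`. -/
theorem graph_bound {A : Type} {D : _root_.Language A} (e : ℕ+ ≃ {u : List A // u ∈ D})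
    (f : LN.Functions 2)
    (hf : AutomaticRel {w : Fin (2 + 1) → List A |
        ∃ x : Fin 2 → ℕ+, (∀ i : Fin 2, w i.castSucc = e (x i)) ∧
          w (Fin.last 2) = e (Structure.funMap f x)}) :
    ∃ N : ℕ, ∀ x y : ℕ+, (e (Structure.funMap f ![x, y]) : List A).length ≤
      max (e x : List A).length (e y : List A).length + N := by
  obtain ⟨N, hN⟩ := length_bound _ hf (by
    rintro w ⟨x, hx, hx'⟩ w' ⟨y, hy, hy'⟩ h0 h1
    have e0 : x 0 = y 0 := by
      have hx0 : w 0 = e (x 0) := hx 0
      have hy0 : w' 0 = e (y 0) := hy 0
      exact e.injective (Subtype.ext (by rw [← hx0, ← hy0, h0]))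
    have e1 : x 1 = y 1 := by
      have hx1 : w 1 = e (x 1) := hx 1
      have hy1 : w' 1 = e (y 1) := hy 1
      exact e.injective (Subtype.ext (by rw [← hx1, ← hy1, h1]))
    have exy : x = y := by
      funext i
      fin_cases i
      · exact e0
      · exact e1
    have hx2 : w 2 = e (Structure.funMap f x) := hx'
    have hy2 : w' 2 = e (Structure.funMap f y) := hy'
    rw [hx2, hy2, exy])
  refine ⟨N, fun x y => ?_⟩
  have h := hN ![(e x : List A), (e y : List A), (e (Structure.funMap f ![x, y]) : List A)]
    ⟨![x, y], by
      intro i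
      fin_cases i <;> rfl, rfl⟩
  exact h

/-- The structure of the positive integers with `+`, `x * 2 ^ y`, `≤` and `1` is not automatic. -/
theorem result : ¬ IsAutomatic LN ℕ+ := by
  classical
  rintro ⟨A, _, D, e, -, -, hf⟩
  -- the lengths of the codes of sums and of shifts
  obtain ⟨N₁, h₁⟩ := graph_bound e Fun.add (hf 2 Fun.add)
  obtain ⟨N₂, h₂⟩ := graph_bound e Fun.shift (hf 2 Fun.shift)
  have hadd : ∀ x y : ℕ+, (e (x + y) : List A).length ≤
      max (e x : List A).length (e y : List A).length + N₁ := fun x y => h₁ x y
  have hshift : ∀ x y : ℕ+, (e (x * 2 ^ (y : ℕ)) : List A).length ≤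
      max (e x : List A).length (e y : List A).length + N₂ := fun x y => h₂ x y
  -- the elements obtained in `k` steps have codes of length `O(k)`
  set a := max (e 1 : List A).length (e 2 : List A).length with ha
  set b := N₁ + 2 * N₂ with hb
  have hgen : ∀ k, ∀ x ∈ gen k, (e x : List A).length ≤ a + b * k := by
    intro k
    induction k with
    | zero =>
      intro x hx
      simp only [gen, Finset.mem_insert, Finset.mem_singleton] at hx
      rcases hx with rfl | rfl
      · simp [ha]
      · simp [ha]
    | succ k ih =>
      intro z hz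
      rw [gen, Finset.mem_image] at hz
      obtain ⟨⟨x, y⟩, hp, rfl⟩ := hz
      rw [Finset.mem_product] at hp
      have hx := ih x hp.1
      have hy := ih y hp.2
      have h3 := hshift x 1
      have h4 := hadd (x * 2 ^ ((1 : ℕ+) : ℕ)) 1
      have h5 := hshift (x * 2 ^ ((1 : ℕ+) : ℕ) + 1) y
      have h6 : (e 1 : List A).length ≤ a := le_max_left _ _
      change (e ((x * 2 ^ ((1 : ℕ+) : ℕ) + 1) * 2 ^ (y : ℕ)) : List A).length ≤ a + b * (k + 1)
      rw [mul_add, mul_one]
      generalize b * k = bk at *
      have h7 := max_le (a := (e x : List A).length) (b := (e 1 : List A).length)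
        (c := a + bk) hx (by omega)
      have h8 := max_le (a := (e (x * 2 ^ ((1 : ℕ+) : ℕ)) : List A).length)
        (b := (e 1 : List A).length) (c := a + bk + N₂) (by omega) (by omega)
      have h9 := max_le (a := (e (x * 2 ^ ((1 : ℕ+) : ℕ) + 1) : List A).length)
        (b := (e y : List A).length) (c := a + bk + N₂ + N₁) (by omega) (by omega)
      omega
  obtain ⟨k, hk⟩ := exp_beats (Nat.card A) a b
  have h10 := card_words (a + b * k) ((gen k).image fun x => (e x : List A)) (by
    intro u hu
    rw [Finset.mem_image] at hu
    obtain ⟨x, hx, rfl⟩ := hu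
    exact hgen k x hx)
  rw [Finset.card_image_of_injective _ (fun x y h => e.injective (Subtype.ext h)), card_gen] at h10
  omega

end Pool.Agent.Results.MP_34afd1_lc.NotAutomatic
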